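import Pool.Agent.MP_b00c97_gt.Cases

open Topology Filter Set Pointwise

namespace Pool.Agent.Results.MP_b00c97_gt.AnalyticSets

open Pool.Agent.MP_b00c97_gt

universe u v

/-- A subset `A` of a topological group is `o`-bounded. -/
def OBounded {G : Type u} [Group G] [TopologicalSpace G] (A : Set G) : Prop :=
  ∀ U : ℕ → Set G, (∀ n, U n ∈ 𝓝 (1 : G)) →
    ∃ F : ℕ → Finset G, A ⊆ ⋃ n, (F n : Set G) * U n

/-- Player I has a winning strategy in the Open-Finite game `OF(A)`: a rule `σ` giving a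
neighbourhood of the identity as a function of the finite list of earlier moves of player II,
such that no sequence of finite sets played by II leads to a cover of `A`. -/
def FirstWins {G : Type u} [Group G] [TopologicalSpace G] (A : Set G) : Prop :=
  ∃ σ : List (Finset G) → Set G, (∀ l, σ l ∈ 𝓝 (1 : G)) ∧
    ∀ F : ℕ → Finset G, ¬ A ⊆ ⋃ n, (F n : Set G) * σ ((List.range n).map F)

section coding

variable {G : Type u} [Group G] [TopologicalSpace G] [IsTopologicalGroup G]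

/-- Every neighbourhood of the identity is refined by one with `V V⁻¹ V ⊆ U`. -/
theorem exists_refine {U : Set G} (hU : U ∈ 𝓝 (1 : G)) :
    ∃ V ∈ 𝓝 (1 : G), ∀ a ∈ V, ∀ b ∈ V, ∀ c ∈ V, a * b⁻¹ * c ∈ U := by
  have hc : Continuous (fun p : G × G × G => p.1 * p.2.1⁻¹ * p.2.2) := by fun_prop
  have h1 : (fun p : G × G × G => p.1 * p.2.1⁻¹ * p.2.2) ⁻¹' U ∈ 𝓝 ((1 : G), (1 : G), (1 : G)) := by
    apply hc.continuousAt
    simpa using hU
  rw [nhds_prod_eq, nhds_prod_eq] at h1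
  obtain ⟨V₁, hV₁, V', hV', h2⟩ := Filter.mem_prod_iff.1 h1
  obtain ⟨V₂, hV₂, V₃, hV₃, h3⟩ := Filter.mem_prod_iff.1 hV'
  refine ⟨V₁ ∩ V₂ ∩ V₃, inter_mem (inter_mem hV₁ hV₂) hV₃, ?_⟩
  intro a ha b hb c hc'
  exact h2 (mk_mem_prod ha.1.1 (h3 (mk_mem_prod hb.1.2 hc'.2)))

/-- Data attached to a strategy `σ` for player I on a set `A` which is covered by countably many
translates of every neighbourhood of the identity. -/
structure Coding (A : Set G) (σ : List (Finset G) → Set G) where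
  V : Set G → Set G
  V_mem : ∀ U, U ∈ 𝓝 (1 : G) → V U ∈ 𝓝 (1 : G)
  V_sub : ∀ U, U ∈ 𝓝 (1 : G) → ∀ a ∈ V U, ∀ b ∈ V U, ∀ c ∈ V U, a * b⁻¹ * c ∈ U
  e : Set G → ℕ → G
  cover : ∀ U, U ∈ 𝓝 (1 : G) → ∀ a ∈ A, ∃ i, (e U i)⁻¹ * a ∈ V U
  σ_mem : ∀ l, σ l ∈ 𝓝 (1 : G)

theorem exists_coding {A : Set G} {σ : List (Finset G) → Set G} (hσ : ∀ l, σ l ∈ 𝓝 (1 : G))
    (hA : ∀ U ∈ 𝓝 (1 : G), ∃ e : ℕ → G, ∀ a ∈ A, ∃ i, (e i)⁻¹ * a ∈ U) :
    Nonempty (Coding A σ) := by
  classical
  have h1 : ∀ U : Set G, ∃ V : Set G, U ∈ 𝓝 (1 : G) → V ∈ 𝓝 (1 : G) ∧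
      ∀ a ∈ V, ∀ b ∈ V, ∀ c ∈ V, a * b⁻¹ * c ∈ U := by
    intro U
    by_cases hU : U ∈ 𝓝 (1 : G)
    · obtain ⟨V, hV, hV'⟩ := exists_refine hU
      exact ⟨V, fun _ => ⟨hV, hV'⟩⟩
    · exact ⟨univ, fun h => absurd h hU⟩
  choose V hV using h1
  have h2 : ∀ U : Set G, ∃ e : ℕ → G, U ∈ 𝓝 (1 : G) → ∀ a ∈ A, ∃ i, (e i)⁻¹ * a ∈ V U := by
    intro U
    by_cases hU : U ∈ 𝓝 (1 : G)
    · obtain ⟨e, he⟩ := hA (V U) (hV U hU).1
      exact ⟨e, fun _ => he⟩
    · exact ⟨fun _ => 1, fun h => absurd h hU⟩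
  choose e he using h2
  exact ⟨⟨V, fun U hU => (hV U hU).1, fun U hU => (hV U hU).2, e, he, hσ⟩⟩

variable {A : Set G} {σ : List (Finset G) → Set G}

/-- The move of player II coded by a number. -/
noncomputable def Coding.move (D : Coding A σ) (U : Set G) (k : ℕ) : Finset G := by
  classical exact (Finset.range k).image (D.e U)

/-- The history coded by a list of numbers (latest first). -/
noncomputable def Coding.hist (D : Coding A σ) : List ℕ → List (Finset G)
  | [] => []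
  | k :: t => D.hist t ++ [D.move (σ (D.hist t)) k]

/-- Player I's move at the position coded by `t`. -/
noncomputable def Coding.pos (D : Coding A σ) (t : List ℕ) : Set G := σ (D.hist t)

/-- The refined neighbourhood at the position coded by `t`. -/
noncomputable def Coding.small (D : Coding A σ) (t : List ℕ) : Set G := D.V (D.pos t)

theorem Coding.small_mem (D : Coding A σ) (t : List ℕ) : D.small t ∈ 𝓝 (1 : G) :=
  D.V_mem _ (D.σ_mem _)

/-- A finite set `E` of group elements and a neighbourhood `W` inside the refined one: a suitable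
move of II covers `A ∩ E W`. -/
theorem Coding.exists_move (D : Coding A σ) (t : List ℕ) (E : Finset G) :
    ∃ k, ∀ k', k ≤ k' → ∀ a ∈ A, ∀ x ∈ E, x⁻¹ * a ∈ D.small t →
      a ∈ (D.move (D.pos t) k' : Set G) * D.pos t := by
  classical
  have h1 : ∀ x : G, ∃ k, ∀ a ∈ A, x⁻¹ * a ∈ D.small t →
      ∃ i, i < k ∧ (D.e (D.pos t) i)⁻¹ * a ∈ D.pos t := by
    intro x
    by_cases hx : ∃ a₀ ∈ A, x⁻¹ * a₀ ∈ D.small t
    · obtain ⟨a₀, ha₀, hxa₀⟩ := hx
      obtain ⟨i, hi⟩ := D.cover (D.pos t) (D.σ_mem _) a₀ ha₀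
      refine ⟨i + 1, fun a _ hxa => ⟨i, Nat.lt_succ_self i, ?_⟩⟩
      have := D.V_sub (D.pos t) (D.σ_mem _) _ hi _ hxa₀ _ hxa
      have heq : (D.e (D.pos t) i)⁻¹ * a₀ * (x⁻¹ * a₀)⁻¹ * (x⁻¹ * a) =
          (D.e (D.pos t) i)⁻¹ * a := by group
      rwa [heq] at this
    · exact ⟨0, fun a ha hxa => absurd ⟨a, ha, hxa⟩ hx⟩
  choose K hK using h1
  refine ⟨E.sup K, fun k' hk' a ha x hx hxa => ?_⟩
  obtain ⟨i, hi, hi'⟩ := hK x a ha hxa
  have hik : i < k' := lt_of_lt_of_le hi (le_trans (Finset.le_sup hx) hk')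
  refine ⟨D.e (D.pos t) i, ?_, (D.e (D.pos t) i)⁻¹ * a, hi', by group⟩
  rw [Coding.move]
  simp only [Finset.coe_image, Finset.coe_range]
  exact ⟨i, hik, rfl⟩

/-- The reversed initial segments of a sequence of numbers. -/
def seg (k : ℕ → ℕ) : ℕ → List ℕ
  | 0 => []
  | n + 1 => k n :: seg k n

theorem seg_length (k : ℕ → ℕ) (n : ℕ) : (seg k n).length = n := by
  induction n with
  | zero => rfl
  | succ n ih => simp [seg, ih]

/-- The play of II coded by a sequence of numbers. -/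
noncomputable def Coding.play (D : Coding A σ) (k : ℕ → ℕ) (n : ℕ) : Finset G :=
  D.move (D.pos (seg k n)) (k n)

theorem Coding.hist_seg (D : Coding A σ) (k : ℕ → ℕ) (n : ℕ) :
    (List.range n).map (D.play k) = D.hist (seg k n) := by
  induction n with
  | zero => rfl
  | succ n ih =>
    rw [List.range_succ, List.map_append, ih]
    rfl

end coding

/-- A normalised sequence refining a given sequence of neighbourhoods. -/
theorem exists_sys {G : Type u} [Group G] [TopologicalSpace G] [IsTopologicalGroup G]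
    (hG : ∀ V ∈ 𝓝 (1 : G), ∃ e : ℕ → G, ∀ g, ∃ i, (e i)⁻¹ * g ∈ V)
    (W : ℕ → Set G) (hW : ∀ n, W n ∈ 𝓝 (1 : G)) :
    ∃ U : ℕ → Set G, Sys U ∧ ∀ n, U n ⊆ W n := by
  classical
  have h1 : ∀ V : Set G, ∃ e : ℕ → G, V ∈ 𝓝 (1 : G) → ∀ g, ∃ i, (e i)⁻¹ * g ∈ V := by
    intro V
    by_cases hV : V ∈ 𝓝 (1 : G)
    · obtain ⟨e, he⟩ := hG V hV
      exact ⟨e, fun _ => he⟩
    · exact ⟨fun _ => 1, fun h => absurd h hV⟩
  choose D hD using h1
  -- one refinement step
  have h2 : ∀ (L : List (Set G)), ∃ V : Set G, (∀ S ∈ L, S ∈ 𝓝 (1 : G)) →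
      V ∈ 𝓝 (1 : G) ∧ IsClosed V ∧ (∀ x ∈ V, x⁻¹ ∈ V) ∧ V ⊆ W L.length ∧
      (∀ x ∈ V, ∀ y ∈ V, x * y ∈ L.headD univ) ∧
      ∀ S ∈ L, ∀ i ∈ Finset.range (L.length + 1), ∀ x ∈ V,
        (D S i)⁻¹ * x * (D S i) ∈ L.headD univ := by
    intro L
    by_cases hL : ∀ S ∈ L, S ∈ 𝓝 (1 : G)
    · have hH : L.headD univ ∈ 𝓝 (1 : G) := by
        cases L with
        | nil => exact Filter.univ_mem
        | cons a l => exact hL a (by simp)
      have h3 : (⋂ S ∈ L.toFinset, ⋂ i ∈ Finset.range (L.length + 1),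
          {x : G | (D S i)⁻¹ * x * (D S i) ∈ L.headD univ}) ∈ 𝓝 (1 : G) := by
        rw [Filter.biInter_finset_mem]
        intro S _
        rw [Filter.biInter_finset_mem]
        intro i _
        have hc : Continuous fun x : G => (D S i)⁻¹ * x * (D S i) := by fun_prop
        have := hc.tendsto 1
        simp only [mul_one, inv_mul_cancel] at this
        exact this hH
      obtain ⟨V, hV, hVc, hVi, hVV⟩ := exists_closed_nhds_one_inv_eq_mul_subset
        (inter_mem (inter_mem h3 hH) (hW L.length))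
      have h1V : (1 : G) ∈ V := mem_of_mem_nhds hV
      have hsub : ∀ x ∈ V, x ∈ _ := fun x hx => hVV ⟨x, hx, 1, h1V, mul_one x⟩
      refine ⟨V, fun _ => ⟨hV, hVc, fun x hx => ?_, fun x hx => (hsub x hx).2,
        fun x hx y hy => (hVV ⟨x, hx, y, hy, rfl⟩).1.2, fun S hS i hi x hx => ?_⟩⟩
      · rw [← hVi]
        simpa using hx
      · have := (hsub x hx).1.1
        simp only [mem_iInter] at this
        exact this S (List.mem_toFinset.2 hS) i hi
    · exact ⟨univ, fun h => absurd h hL⟩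
  choose next hnext using h2
  let hist : ℕ → List (Set G) := fun n => Nat.rec [] (fun _ L => next L :: L) n
  have hhist : ∀ n, hist (n + 1) = next (hist n) :: hist n := fun n => rfl
  have hlen : ∀ n, (hist n).length = n := by
    intro n
    induction n with
    | zero => rfl
    | succ n ih => rw [hhist, List.length_cons, ih]
  have hnhds : ∀ n, ∀ S ∈ hist n, S ∈ 𝓝 (1 : G) := by
    intro n
    induction n with
    | zero => intro S hS; simp [hist] at hS
    | succ n ih =>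
      intro S hS
      rw [hhist, List.mem_cons] at hS
      rcases hS with rfl | hS
      · exact (hnext _ ih).1
      · exact ih S hS
  have hmem : ∀ n j, j < n → next (hist j) ∈ hist n := by
    intro n
    induction n with
    | zero => intro j hj; omega
    | succ n ih =>
      intro j hj
      rw [hhist, List.mem_cons]
      rcases Nat.lt_succ_iff_lt_or_eq.1 hj with h | rfl
      · exact Or.inr (ih j h)
      · exact Or.inl rfl
  let U : ℕ → Set G := fun n => next (hist n)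
  have hU : ∀ n, U n = next (hist n) := fun n => rfl
  have hhead : ∀ n, (hist (n + 1)).headD univ = U n := fun n => rfl
  have hUn : ∀ n, U n ∈ 𝓝 (1 : G) := fun n => (hnext _ (hnhds n)).1
  have hUsymm : ∀ n, ∀ x ∈ U n, x⁻¹ ∈ U n := fun n => (hnext _ (hnhds n)).2.2.1
  have hUmul : ∀ n, ∀ x ∈ U (n + 1), ∀ y ∈ U (n + 1), x * y ∈ U n := by
    intro n
    have := (hnext _ (hnhds (n + 1))).2.2.2.2.1
    rwa [hhead] at this
  have hUanti : ∀ m n, m ≤ n → U n ⊆ U m := by
    have : Antitone U := by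
      apply antitone_nat_of_succ_le
      intro n x hx
      have := hUmul n x hx 1 (mem_of_mem_nhds (hUn (n + 1)))
      simpa using this
    exact fun m n h => this h
  refine ⟨U, ⟨hUn, fun n => (hnext _ (hnhds n)).2.1, hUsymm, hUmul, ?_⟩, ?_⟩
  · intro g n
    obtain ⟨i, hi⟩ := hD (U (n + 2)) (hUn (n + 2)) g
    set d := D (U (n + 2)) i with hd
    obtain ⟨N, hN1, hN2⟩ : ∃ N, n + 2 ≤ N ∧ i ≤ N := ⟨max (n + 2) i, by simp, by simp⟩
    refine ⟨N + 1, fun x hx => ?_⟩
    have hir : i ∈ Finset.range ((hist (N + 1)).length + 1) := by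
      have := hlen (N + 1)
      exact Finset.mem_range.2 (by omega)
    have h3 : d⁻¹ * x * d ∈ U N := (hnext _ (hnhds (N + 1))).2.2.2.2.2 (U (n + 2))
      (hmem (N + 1) (n + 2) (by omega)) i hir x hx
    have h4 : d⁻¹ * x * d ∈ U (n + 2) := hUanti _ _ hN1 h3
    have h5 := hUmul (n + 1) _ (hUsymm (n + 2) _ hi) _ h4
    have h6 := hUmul n _ h5 _ (hUanti (n + 1) (n + 2) (by omega) hi)
    have h7 : (d⁻¹ * g)⁻¹ * (d⁻¹ * x * d) * (d⁻¹ * g) = g⁻¹ * x * g := by group
    rwa [h7] at h6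
  · intro n
    have := (hnext _ (hnhds n)).2.2.2.1
    rwa [hlen] at this

/-- **Theorem.** In an `o`-bounded topological group player I has no winning strategy in `OF(A)`
for any analytic subset `A`. -/
theorem result {G : Type u} [Group G] [TopologicalSpace G] [IsTopologicalGroup G]
    (hG : OBounded (univ : Set G)) {A : Set G} (hA : MeasureTheory.AnalyticSet A) :
    ¬ FirstWins A := by
  classical
  rintro ⟨σ, hσ, hσw⟩
  -- `G` is covered by countably many translates of every neighbourhood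
  have hcov : ∀ V ∈ 𝓝 (1 : G), ∃ e : ℕ → G, ∀ g, ∃ i, (e i)⁻¹ * g ∈ V := by
    intro V hV
    obtain ⟨F, hF⟩ := hG (fun _ => V) (fun _ => hV)
    have hc : (⋃ n, (F n : Set G)).Countable := countable_iUnion fun n => (F n).countable_toSet
    have key : ∀ g, ∃ x ∈ (⋃ n, (F n : Set G)), x⁻¹ * g ∈ V := by
      intro g
      obtain ⟨n, x, hx, y, hy, rfl⟩ := mem_iUnion.1 (hF (mem_univ g))
      exact ⟨x, mem_iUnion.2 ⟨n, hx⟩, by simpa using hy⟩
    obtain ⟨x, hx, -⟩ := key 1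
    obtain ⟨e, he⟩ := hc.exists_eq_range ⟨x, hx⟩
    refine ⟨e, fun g => ?_⟩
    obtain ⟨x, hx, hxg⟩ := key g
    rw [he] at hx
    obtain ⟨i, rfl⟩ := hx
    exact ⟨i, hxg⟩
  obtain ⟨D⟩ := exists_coding (A := A) hσ (fun V hV => by
    obtain ⟨e, he⟩ := hcov V hV
    exact ⟨e, fun a _ => he a⟩)
  obtain ⟨c, hc⟩ := exists_surjective_nat (List ℕ)
  obtain ⟨U, hU, hUW⟩ := exists_sys hcov (fun n => D.small (c n)) (fun n => D.small_mem _)
  rw [MeasureTheory.AnalyticSet] at hA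
  rcases hA with rfl | ⟨φ, hφ, hφA⟩
  · exact hσw (fun _ => ∅) (empty_subset _)
  -- sigma-bounded sets
  let SB : Set (ℕ → ℕ) → Prop := fun O => ∃ K : ℕ → Set (ℕ → ℕ), O ⊆ ⋃ i, K i ∧
    ∀ i n, BdOn φ (K i) (U n)
  have hSBmono : ∀ {O O' : Set (ℕ → ℕ)}, SB O → O' ⊆ O → SB O' := by
    rintro O O' ⟨K, hK, hK'⟩ h
    exact ⟨K, h.trans hK, hK'⟩
  have hSBunion : ∀ {O : ℕ → Set (ℕ → ℕ)}, (∀ i, SB (O i)) → SB (⋃ i, O i) := by
    intro O h
    choose K hK hK' using h
    refine ⟨fun p => K p.unpair.1 p.unpair.2, ?_, fun p n => hK' _ _ n⟩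
    intro x hx
    obtain ⟨i, hi⟩ := mem_iUnion.1 hx
    obtain ⟨j, hj⟩ := mem_iUnion.1 (hK i hi)
    refine mem_iUnion.2 ⟨Nat.pair i j, ?_⟩
    simpa using hj
  have hSBuniv : ¬ SB univ := by
    rintro ⟨K, hK, hK'⟩
    -- II beats the strategy
    have hmove : ∀ (n : ℕ) (t : List ℕ), ∃ k, ∀ x ∈ K n,
        φ x ∈ (D.move (D.pos t) k : Set G) * D.pos t := by
      intro n t
      obtain ⟨m, hm⟩ := hc t
      obtain ⟨E, hE⟩ := hK' n m
      obtain ⟨k, hk⟩ := D.exists_move t E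
      refine ⟨k, fun x hx => ?_⟩
      obtain ⟨e, he, hex⟩ := hE x hx
      refine hk k le_rfl (φ x) (by rw [← hφA]; exact mem_range_self x) e he ?_
      rw [← hm]
      exact hUW m hex
    choose κ hκ using hmove
    let t : ℕ → List ℕ := fun n => Nat.rec [] (fun n s => κ n s :: s) n
    let k : ℕ → ℕ := fun n => κ n (t n)
    have hseg : ∀ n, seg k n = t n := by
      intro n
      induction n with
      | zero => rfl
      | succ n ih => rw [seg, ih]
    apply hσw (D.play k)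
    intro a ha
    rw [← hφA] at ha
    obtain ⟨x, rfl⟩ := ha
    obtain ⟨n, hn⟩ := mem_iUnion.1 (hK (mem_univ x))
    refine mem_iUnion.2 ⟨n, ?_⟩
    rw [D.hist_seg, Coding.play, hseg]
    exact hκ n (t n) x hn
  -- the kernel
  let Q : Set (ℕ → ℕ) := {x | ∀ O, IsOpen O → x ∈ O → ¬ SB O}
  have hQc : SB Qᶜ := by
    obtain ⟨b, hbc, -, hb⟩ := TopologicalSpace.exists_countable_basis (ℕ → ℕ)
    have hbne : ((fun O => if SB O then O else ∅) '' b).Countable := hbc.image _
    have hemp : ∀ O : Set (ℕ → ℕ), SB (if SB O then O else ∅) := by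
      intro O
      split_ifs with h
      · exact h
      · exact ⟨fun _ => ∅, empty_subset _, fun _ _ => ⟨∅, fun x hx => absurd hx (notMem_empty x)⟩⟩
    rcases ((fun O => if SB O then O else ∅) '' b).eq_empty_or_nonempty with h0 | h0
    · exfalso
      rw [image_eq_empty] at h0
      obtain ⟨O, hO, -⟩ := hb.exists_subset_of_mem_open (mem_univ (fun _ => 0 : ℕ → ℕ))
        isOpen_univ
      rw [h0] at hO
      exact hO
    obtain ⟨e, he⟩ := hbne.exists_eq_range h0
    have hSBe : ∀ i, SB (e i) := by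
      intro i
      have : e i ∈ (fun O => if SB O then O else ∅) '' b := by rw [he]; exact mem_range_self i
      obtain ⟨O, -, hO⟩ := this
      rw [← hO]
      exact hemp O
    refine hSBmono (hSBunion hSBe) ?_
    intro x hx
    simp only [Q, mem_compl_iff, mem_ofPred_eq, not_forall, not_not] at hx
    obtain ⟨O, hO, hxO, hSB⟩ := hx
    obtain ⟨O', hO'b, hxO', hO'O⟩ := hb.exists_subset_of_mem_open hxO hO
    have h1 : O' ∈ (fun O => if SB O then O else ∅) '' b :=
      ⟨O', hO'b, if_pos (hSBmono hSB hO'O)⟩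
    rw [he] at h1
    obtain ⟨i, hi⟩ := h1
    exact mem_iUnion.2 ⟨i, by rw [hi]; exact hxO'⟩
  have hSBor : ∀ {O O' : Set (ℕ → ℕ)}, SB O → SB O' → SB (O ∪ O') := by
    intro O O' h h'
    refine hSBmono (hSBunion (O := fun i => if i = 0 then O else O') ?_) ?_
    · intro i
      split_ifs
      · exact h
      · exact h'
    · rintro x (hx | hx)
      · exact mem_iUnion.2 ⟨0, by simpa using hx⟩
      · exact mem_iUnion.2 ⟨1, by simpa using hx⟩
  have hQclosed : IsClosed Q := by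
    rw [← isOpen_compl_iff, isOpen_iff_mem_nhds]
    intro x hx
    simp only [Q, mem_compl_iff, mem_ofPred_eq, not_forall, not_not] at hx
    obtain ⟨O, hO, hxO, hSB⟩ := hx
    filter_upwards [hO.mem_nhds hxO] with y hy hyQ
    exact hyQ O hO hy hSB
  have hQne : Q.Nonempty := by
    by_contra h
    rw [not_nonempty_iff_eq_empty] at h
    rw [h, compl_empty] at hQc
    exact hSBuniv hQc
  have : Nonempty Q := hQne.to_subtype
  have : PolishSpace Q := hQclosed.polishSpace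
  letI := TopologicalSpace.upgradeIsCompletelyMetrizable Q
  have hf : Continuous fun x : Q => φ x := hφ.comp continuous_subtype_val
  obtain ⟨N, hN⟩ := core hf hU (by
    intro O hO hOne
    by_contra hcon
    push Not at hcon
    obtain ⟨V, hV, rfl⟩ := isOpen_induced_iff.1 hO
    obtain ⟨x, hx⟩ := hOne
    apply x.2 V hV hx
    refine hSBmono (hSBor (O := Subtype.val '' ((Subtype.val : Q → ℕ → ℕ) ⁻¹' V)) ?_ hQc) ?_
    · refine ⟨fun _ => _, subset_iUnion (fun _ : ℕ => _) 0, fun _ n => ?_⟩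
      obtain ⟨E, hE⟩ := hcon n
      refine ⟨E, ?_⟩
      rintro _ ⟨y, hy, rfl⟩
      exact hE y hy
    · intro y hy
      by_cases hyQ : y ∈ Q
      · exact Or.inl ⟨⟨y, hyQ⟩, hy, rfl⟩
      · exact Or.inr hyQ)
  obtain ⟨F, hF⟩ := hG (fun n => U (N + n)) (fun n => hU.nhds _)
  obtain ⟨g, hg⟩ := hN fun n => F (n - N)
  obtain ⟨n, x, hx, y, hy, hxy⟩ := mem_iUnion.1 (hF (mem_univ g))
  refine hg (N + n) (by omega) ⟨x, ?_, ?_⟩
  · rw [Nat.add_sub_cancel_left]
    exact hx
  · rw [← hxy]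
    simpa using hy

end Pool.Agent.Results.MP_b00c97_gt.AnalyticSets
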