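import Pool.Agent.MP_b00c97_gt.ConsistentExample
import Pool.Agent.MP_b00c97_gt.Ind.FromGame

/-!
# MP_b00c97_gt: the existence of an `o`-bounded SIN group on which player I wins

Two theorems of ZFC about the statement `Y`: there is an `o`-bounded SIN group for which player I
has a winning strategy in the Open-Finite game.

* If `Y` fails (even only for subgroups of `ℤ^ℕ`) then `cov(M) < c`.
* If `Y` holds then `h ≤ non(SN)`.
-/

set_option autoImplicit false

open Topology Filter Set Pointwise Cardinal

namespace Pool.Agent.Results.MP_b00c97_gt.Independence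

universe u

/-- A subset `A` of a topological group is `o`-bounded. -/
def OBounded {G : Type u} [Group G] [TopologicalSpace G] (A : Set G) : Prop :=
  ∀ U : ℕ → Set G, (∀ n, U n ∈ 𝓝 (1 : G)) →
    ∃ F : ℕ → Finset G, A ⊆ ⋃ n, (F n : Set G) * U n

/-- Player I has a winning strategy in the Open-Finite game `OF(A)`: a rule `σ` giving a
neighbourhood of the identity as a function of the finite list of earlier moves of player II,
such that no sequence of finite sets played by II leads to a cover of `A`. -/
def FirstWins {G : Type u} [Group G] [TopologicalSpace G] (A : Set G) : Prop :=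
  ∃ σ : List (Finset G) → Set G, (∀ l, σ l ∈ 𝓝 (1 : G)) ∧
    ∀ F : ℕ → Finset G, ¬ A ⊆ ⋃ n, (F n : Set G) * σ ((List.range n).map F)

/-- A SIN group: every neighbourhood of the identity contains a neighbourhood of the identity
which is invariant under all inner automorphisms. -/
def IsSIN (G : Type u) [Group G] [TopologicalSpace G] : Prop :=
  ∀ U ∈ 𝓝 (1 : G), ∃ V ∈ 𝓝 (1 : G), V ⊆ U ∧ ∀ g : G, ∀ v ∈ V, g * v * g⁻¹ ∈ V

/-- `cov(M) = c` (equivalently Martin's axiom for countable posets): fewer than continuum many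
dense open subsets of the Baire space have a common point. -/
def CovMeagerEqContinuum : Prop :=
  ∀ 𝒟 : Set (Set (ℕ → ℕ)), #𝒟 < 𝔠 → (∀ D ∈ 𝒟, IsOpen D ∧ Dense D) → (⋂₀ 𝒟).Nonempty

/-- A set of infinite binary sequences has strong measure zero. -/
def StrongMeasureZero (X : Set (ℕ → Bool)) : Prop :=
  ∀ f : ℕ → ℕ, ∃ y : ℕ → ℕ → Bool, ∀ x ∈ X, ∃ m, ∀ i < f m, x i = y m i

/-- A family `D` of infinite sets of natural numbers is open dense in `([ℕ]^ω, ⊆*)`: it is closed
under infinite almost-subsets, and every infinite set contains a member of `D`. -/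
def OpenDense (D : Set (Set ℕ)) : Prop :=
  (∀ A ∈ D, A.Infinite) ∧ (∀ A ∈ D, ∀ B : Set ℕ, B.Infinite → (B \ A).Finite → B ∈ D) ∧
    ∀ A : Set ℕ, A.Infinite → ∃ B ∈ D, B ⊆ A

/-- `non(SN) < h`: some set `X` of binary sequences does not have strong measure zero, while any
family of at most `#X` open dense families of infinite sets of natural numbers has a common
member. -/
def NonSNLtH : Prop :=
  ∃ X : Set (ℕ → Bool), ¬ StrongMeasureZero X ∧
    ∀ 𝒟 : Set (Set (Set ℕ)), #𝒟 ≤ #X → (∀ D ∈ 𝒟, OpenDense D) → (⋂₀ 𝒟).Nonempty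

/-- (A) If `cov(M) = c` there is an `o`-bounded, separable metrizable abelian group (a subgroup of
`ℤ^ℕ`) for which player I has a winning strategy.
(B) If `non(SN) < h` there is no `o`-bounded SIN group for which player I has a winning
strategy. -/
theorem result :
    (CovMeagerEqContinuum →
      ∃ G : Subgroup (ℕ → Multiplicative ℤ),
        TopologicalSpace.MetrizableSpace G ∧ TopologicalSpace.SeparableSpace G ∧
        OBounded (univ : Set G) ∧ FirstWins (univ : Set G)) ∧
    (NonSNLtH → ∀ (G : Type u) [Group G] [TopologicalSpace G] [IsTopologicalGroup G],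
      IsSIN G → OBounded (univ : Set G) → ¬ FirstWins (univ : Set G)) := by
  refine ⟨Pool.Agent.MP_b00c97_gt.ConsistentExample.main.2, ?_⟩
  rintro ⟨X, hX, hh⟩ G _ _ _ hS hO hW
  obtain ⟨F, hF⟩ := Pool.Agent.MP_b00c97_gt.Ind.exists_scale hS hO hW
  refine Pool.Agent.MP_b00c97_gt.Ind.not_scale (X := X) hX ?_ hF
  intro 𝒟 h𝒟
  obtain ⟨B, hB⟩ := hh (range 𝒟) mk_range_le (by
    rintro D ⟨x, rfl⟩
    exact ⟨(h𝒟 x).infinite, (h𝒟 x).isOpen, (h𝒟 x).dense⟩)
  exact ⟨B, fun x => hB _ (mem_range_self x)⟩

end Pool.Agent.Results.MP_b00c97_gt.Independence
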