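import Mathlib

open Topology Filter Set Pointwise

namespace Pool.Agent.Results.MP_b00c97_gt.ProductNotBounded

universe u v

/-- A subset `A` of a topological group is `o`-bounded. -/
def OBounded {G : Type u} [Group G] [TopologicalSpace G] (A : Set G) : Prop :=
  ∀ U : ℕ → Set G, (∀ n, U n ∈ 𝓝 (1 : G)) →
    ∃ F : ℕ → Finset G, A ⊆ ⋃ n, (F n : Set G) * U n

/-- Player I has a winning strategy in the Open-Finite game `OF(A)`: a rule `σ` giving a
neighbourhood of the identity as a function of the finite list of earlier moves of player II,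
such that no sequence of finite sets played by II leads to a cover of `A`. -/
def FirstWins {G : Type u} [Group G] [TopologicalSpace G] (A : Set G) : Prop :=
  ∃ σ : List (Finset G) → Set G, (∀ l, σ l ∈ 𝓝 (1 : G)) ∧
    ∀ F : ℕ → Finset G, ¬ A ⊆ ⋃ n, (F n : Set G) * σ ((List.range n).map F)

section coding

variable {G : Type u} [Group G] [TopologicalSpace G] [IsTopologicalGroup G]

/-- Every neighbourhood of the identity is refined by one with `V V⁻¹ V ⊆ U`. -/
theorem exists_refine {U : Set G} (hU : U ∈ 𝓝 (1 : G)) :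
    ∃ V ∈ 𝓝 (1 : G), ∀ a ∈ V, ∀ b ∈ V, ∀ c ∈ V, a * b⁻¹ * c ∈ U := by
  have hc : Continuous (fun p : G × G × G => p.1 * p.2.1⁻¹ * p.2.2) := by fun_prop
  have h1 : (fun p : G × G × G => p.1 * p.2.1⁻¹ * p.2.2) ⁻¹' U ∈ 𝓝 ((1 : G), (1 : G), (1 : G)) := by
    apply hc.continuousAt
    simpa using hU
  rw [nhds_prod_eq, nhds_prod_eq] at h1
  obtain ⟨V₁, hV₁, V', hV', h2⟩ := Filter.mem_prod_iff.1 h1
  obtain ⟨V₂, hV₂, V₃, hV₃, h3⟩ := Filter.mem_prod_iff.1 hV'
  refine ⟨V₁ ∩ V₂ ∩ V₃, inter_mem (inter_mem hV₁ hV₂) hV₃, ?_⟩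
  intro a ha b hb c hc'
  exact h2 (mk_mem_prod ha.1.1 (h3 (mk_mem_prod hb.1.2 hc'.2)))

/-- Data attached to a strategy `σ` for player I on a set `A` which is covered by countably many
translates of every neighbourhood of the identity. -/
structure Coding (A : Set G) (σ : List (Finset G) → Set G) where
  V : Set G → Set G
  V_mem : ∀ U, U ∈ 𝓝 (1 : G) → V U ∈ 𝓝 (1 : G)
  V_sub : ∀ U, U ∈ 𝓝 (1 : G) → ∀ a ∈ V U, ∀ b ∈ V U, ∀ c ∈ V U, a * b⁻¹ * c ∈ U
  e : Set G → ℕ → G
  cover : ∀ U, U ∈ 𝓝 (1 : G) → ∀ a ∈ A, ∃ i, (e U i)⁻¹ * a ∈ V U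
  σ_mem : ∀ l, σ l ∈ 𝓝 (1 : G)

theorem exists_coding {A : Set G} {σ : List (Finset G) → Set G} (hσ : ∀ l, σ l ∈ 𝓝 (1 : G))
    (hA : ∀ U ∈ 𝓝 (1 : G), ∃ e : ℕ → G, ∀ a ∈ A, ∃ i, (e i)⁻¹ * a ∈ U) :
    Nonempty (Coding A σ) := by
  classical
  have h1 : ∀ U : Set G, ∃ V : Set G, U ∈ 𝓝 (1 : G) → V ∈ 𝓝 (1 : G) ∧
      ∀ a ∈ V, ∀ b ∈ V, ∀ c ∈ V, a * b⁻¹ * c ∈ U := by
    intro U
    by_cases hU : U ∈ 𝓝 (1 : G)
    · obtain ⟨V, hV, hV'⟩ := exists_refine hU
      exact ⟨V, fun _ => ⟨hV, hV'⟩⟩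
    · exact ⟨univ, fun h => absurd h hU⟩
  choose V hV using h1
  have h2 : ∀ U : Set G, ∃ e : ℕ → G, U ∈ 𝓝 (1 : G) → ∀ a ∈ A, ∃ i, (e i)⁻¹ * a ∈ V U := by
    intro U
    by_cases hU : U ∈ 𝓝 (1 : G)
    · obtain ⟨e, he⟩ := hA (V U) (hV U hU).1
      exact ⟨e, fun _ => he⟩
    · exact ⟨fun _ => 1, fun h => absurd h hU⟩
  choose e he using h2
  exact ⟨⟨V, fun U hU => (hV U hU).1, fun U hU => (hV U hU).2, e, he, hσ⟩⟩

variable {A : Set G} {σ : List (Finset G) → Set G}

/-- The move of player II coded by a number. -/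
noncomputable def Coding.move (D : Coding A σ) (U : Set G) (k : ℕ) : Finset G := by
  classical exact (Finset.range k).image (D.e U)

/-- The history coded by a list of numbers (latest first). -/
noncomputable def Coding.hist (D : Coding A σ) : List ℕ → List (Finset G)
  | [] => []
  | k :: t => D.hist t ++ [D.move (σ (D.hist t)) k]

/-- Player I's move at the position coded by `t`. -/
noncomputable def Coding.pos (D : Coding A σ) (t : List ℕ) : Set G := σ (D.hist t)

/-- The refined neighbourhood at the position coded by `t`. -/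
noncomputable def Coding.small (D : Coding A σ) (t : List ℕ) : Set G := D.V (D.pos t)

theorem Coding.small_mem (D : Coding A σ) (t : List ℕ) : D.small t ∈ 𝓝 (1 : G) :=
  D.V_mem _ (D.σ_mem _)

/-- A finite set `E` of group elements and a neighbourhood `W` inside the refined one: a suitable
move of II covers `A ∩ E W`. -/
theorem Coding.exists_move (D : Coding A σ) (t : List ℕ) (E : Finset G) :
    ∃ k, ∀ k', k ≤ k' → ∀ a ∈ A, ∀ x ∈ E, x⁻¹ * a ∈ D.small t →
      a ∈ (D.move (D.pos t) k' : Set G) * D.pos t := by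
  classical
  have h1 : ∀ x : G, ∃ k, ∀ a ∈ A, x⁻¹ * a ∈ D.small t →
      ∃ i, i < k ∧ (D.e (D.pos t) i)⁻¹ * a ∈ D.pos t := by
    intro x
    by_cases hx : ∃ a₀ ∈ A, x⁻¹ * a₀ ∈ D.small t
    · obtain ⟨a₀, ha₀, hxa₀⟩ := hx
      obtain ⟨i, hi⟩ := D.cover (D.pos t) (D.σ_mem _) a₀ ha₀
      refine ⟨i + 1, fun a _ hxa => ⟨i, Nat.lt_succ_self i, ?_⟩⟩
      have := D.V_sub (D.pos t) (D.σ_mem _) _ hi _ hxa₀ _ hxa
      have heq : (D.e (D.pos t) i)⁻¹ * a₀ * (x⁻¹ * a₀)⁻¹ * (x⁻¹ * a) =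
          (D.e (D.pos t) i)⁻¹ * a := by group
      rwa [heq] at this
    · exact ⟨0, fun a ha hxa => absurd ⟨a, ha, hxa⟩ hx⟩
  choose K hK using h1
  refine ⟨E.sup K, fun k' hk' a ha x hx hxa => ?_⟩
  obtain ⟨i, hi, hi'⟩ := hK x a ha hxa
  have hik : i < k' := lt_of_lt_of_le hi (le_trans (Finset.le_sup hx) hk')
  refine ⟨D.e (D.pos t) i, ?_, (D.e (D.pos t) i)⁻¹ * a, hi', by group⟩
  rw [Coding.move]
  simp only [Finset.coe_image, Finset.coe_range]
  exact ⟨i, hik, rfl⟩

/-- The reversed initial segments of a sequence of numbers. -/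
def seg (k : ℕ → ℕ) : ℕ → List ℕ
  | 0 => []
  | n + 1 => k n :: seg k n

theorem seg_length (k : ℕ → ℕ) (n : ℕ) : (seg k n).length = n := by
  induction n with
  | zero => rfl
  | succ n ih => simp [seg, ih]

/-- The play of II coded by a sequence of numbers. -/
noncomputable def Coding.play (D : Coding A σ) (k : ℕ → ℕ) (n : ℕ) : Finset G :=
  D.move (D.pos (seg k n)) (k n)

theorem Coding.hist_seg (D : Coding A σ) (k : ℕ → ℕ) (n : ℕ) :
    (List.range n).map (D.play k) = D.hist (seg k n) := by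
  induction n with
  | zero => rfl
  | succ n ih =>
    rw [List.range_succ, List.map_append, ih]
    rfl

/-- The common neighbourhoods: the intersection of the refined neighbourhoods attached to the
first `n + 1` coded positions. -/
def Coding.common (D : Coding A σ) (f : ℕ → List ℕ) (n : ℕ) : Set G :=
  ⋂ i ∈ Finset.range (n + 1), D.small (f i)

theorem Coding.common_mem (D : Coding A σ) (f : ℕ → List ℕ) (n : ℕ) :
    D.common f n ∈ 𝓝 (1 : G) := by
  rw [Coding.common, Filter.biInter_finset_mem]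
  exact fun i _ => D.small_mem _

theorem Coding.common_sub (D : Coding A σ) (f : ℕ → List ℕ) {i n : ℕ} (h : i ≤ n) :
    D.common f n ⊆ D.small (f i) := by
  intro x hx
  simp only [Coding.common, Finset.mem_range, mem_iInter] at hx
  exact hx i (by omega)

/-- A single move of II at the position `t` which takes care of all events between
`idx t` and `N`. -/
theorem Coding.exists_big (D : Coding A σ) (f : ℕ → List ℕ) (idx : List ℕ → ℕ)
    (hf : ∀ t, f (idx t) = t) (E : ℕ → Finset G) (t : List ℕ) (N : ℕ) :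
    ∃ k, ∀ n, idx t ≤ n → n ≤ N → ∀ a ∈ A, ∀ x ∈ E n, x⁻¹ * a ∈ D.common f n →
      a ∈ (D.move (D.pos t) k : Set G) * D.pos t := by
  classical
  obtain ⟨k, hk⟩ := D.exists_move t ((Finset.range (N + 1)).biUnion E)
  refine ⟨k, fun n hn hnN a ha x hx hxa => hk k le_rfl a ha x ?_ ?_⟩
  · exact Finset.mem_biUnion.2 ⟨n, Finset.mem_range.2 (by omega), hx⟩
  · have := D.common_sub f hn hxa
    rwa [hf] at this

end coding

/-- If a product of two nonempty sets is `o`-bounded then each factor is covered by countably many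
translates of every neighbourhood of the identity. -/
theorem countable_cover_fst {G : Type u} {H : Type v} [Group G] [TopologicalSpace G]
    [Group H] [TopologicalSpace H] {A : Set G} {B : Set H} (hB : B.Nonempty)
    (h : OBounded (A ×ˢ B : Set (G × H))) :
    ∀ U ∈ 𝓝 (1 : G), ∃ e : ℕ → G, ∀ a ∈ A, ∃ i, (e i)⁻¹ * a ∈ U := by
  classical
  intro U hU
  obtain ⟨F, hF⟩ := h (fun _ => U ×ˢ univ) (fun _ => by
    rw [Prod.one_eq_mk, nhds_prod_eq]; exact Filter.prod_mem_prod hU Filter.univ_mem)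
  have hc : (⋃ n, (Prod.fst '' (F n : Set (G × H)))).Countable :=
    countable_iUnion fun n => ((F n).finite_toSet.image _).countable
  obtain ⟨b, hb⟩ := hB
  have key : ∀ a ∈ A, ∃ x ∈ (⋃ n, (Prod.fst '' (F n : Set (G × H)))), x⁻¹ * a ∈ U := by
    intro a ha
    obtain ⟨n, hn⟩ := mem_iUnion.1 (hF (mk_mem_prod ha hb))
    obtain ⟨x, hx, y, hy, hxy⟩ := hn
    refine ⟨x.1, mem_iUnion.2 ⟨n, x, hx, rfl⟩, ?_⟩
    have h1 : x.1 * y.1 = a := congrArg Prod.fst hxy
    have h2 : x.1⁻¹ * a = y.1 := by rw [← h1]; group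
    rw [h2]
    exact hy.1
  rcases (⋃ n, (Prod.fst '' (F n : Set (G × H)))).eq_empty_or_nonempty with h0 | h0
  · refine ⟨fun _ => 1, fun a ha => ?_⟩
    obtain ⟨x, hx, _⟩ := key a ha
    rw [h0] at hx
    exact absurd hx (notMem_empty x)
  · obtain ⟨e, he⟩ := hc.exists_eq_range h0
    refine ⟨e, fun a ha => ?_⟩
    obtain ⟨x, hx, hxa⟩ := key a ha
    rw [he] at hx
    obtain ⟨i, rfl⟩ := hx
    exact ⟨i, hxa⟩

theorem countable_cover_snd {G : Type u} {H : Type v} [Group G] [TopologicalSpace G]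
    [Group H] [TopologicalSpace H] {A : Set G} {B : Set H} (hA : A.Nonempty)
    (h : OBounded (A ×ˢ B : Set (G × H))) :
    ∀ U ∈ 𝓝 (1 : H), ∃ e : ℕ → H, ∀ b ∈ B, ∃ i, (e i)⁻¹ * b ∈ U := by
  classical
  intro U hU
  obtain ⟨F, hF⟩ := h (fun _ => univ ×ˢ U) (fun _ => by
    rw [Prod.one_eq_mk, nhds_prod_eq]; exact Filter.prod_mem_prod Filter.univ_mem hU)
  have hc : (⋃ n, (Prod.snd '' (F n : Set (G × H)))).Countable :=
    countable_iUnion fun n => ((F n).finite_toSet.image _).countable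
  obtain ⟨b, hb⟩ := hA
  have key : ∀ a ∈ B, ∃ x ∈ (⋃ n, (Prod.snd '' (F n : Set (G × H)))), x⁻¹ * a ∈ U := by
    intro a ha
    obtain ⟨n, hn⟩ := mem_iUnion.1 (hF (mk_mem_prod hb ha))
    obtain ⟨x, hx, y, hy, hxy⟩ := hn
    refine ⟨x.2, mem_iUnion.2 ⟨n, x, hx, rfl⟩, ?_⟩
    have h1 : x.2 * y.2 = a := congrArg Prod.snd hxy
    have h2 : x.2⁻¹ * a = y.2 := by rw [← h1]; group
    rw [h2]
    exact hy.2
  rcases (⋃ n, (Prod.snd '' (F n : Set (G × H)))).eq_empty_or_nonempty with h0 | h0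
  · refine ⟨fun _ => 1, fun a ha => ?_⟩
    obtain ⟨x, hx, _⟩ := key a ha
    rw [h0] at hx
    exact absurd hx (notMem_empty x)
  · obtain ⟨e, he⟩ := hc.exists_eq_range h0
    refine ⟨e, fun a ha => ?_⟩
    obtain ⟨x, hx, hxa⟩ := key a ha
    rw [he] at hx
    obtain ⟨i, rfl⟩ := hx
    exact ⟨i, hxa⟩

/-- From an `o`-bounded product: one sequence of pairs of finite sets catching every point
infinitely often, simultaneously in both coordinates. -/
theorem exists_events {G : Type u} {H : Type v} [Group G] [TopologicalSpace G]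
    [Group H] [TopologicalSpace H] {A : Set G} {B : Set H}
    (h : OBounded (A ×ˢ B : Set (G × H))) (W : ℕ → Set G) (W' : ℕ → Set H)
    (hW : ∀ n, W n ∈ 𝓝 (1 : G)) (hW' : ∀ n, W' n ∈ 𝓝 (1 : H)) :
    ∃ (E : ℕ → Finset G) (E' : ℕ → Finset H), ∀ a ∈ A, ∀ b ∈ B, ∀ N, ∃ n, N ≤ n ∧
      (∃ x ∈ E n, x⁻¹ * a ∈ W n) ∧ ∃ y ∈ E' n, y⁻¹ * b ∈ W' n := by
  classical
  have h1 : ∀ N, ∃ F : ℕ → Finset (G × H), (A ×ˢ B : Set (G × H)) ⊆
      ⋃ n, (F n : Set (G × H)) * (W (N + n) ×ˢ W' (N + n)) := fun N =>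
    h (fun n => W (N + n) ×ˢ W' (N + n)) (fun n => by
      rw [Prod.one_eq_mk, nhds_prod_eq]; exact Filter.prod_mem_prod (hW _) (hW' _))
  choose F hF using h1
  refine ⟨fun m => (Finset.range (m + 1)).biUnion fun N => (F N (m - N)).image Prod.fst,
    fun m => (Finset.range (m + 1)).biUnion fun N => (F N (m - N)).image Prod.snd, ?_⟩
  intro a ha b hb N
  obtain ⟨n, x, hx, y, hy, hxy⟩ := mem_iUnion.1 (hF N (mk_mem_prod ha hb))
  have h1 : x.1 * y.1 = a := congrArg Prod.fst hxy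
  have h2 : x.2 * y.2 = b := congrArg Prod.snd hxy
  have hmem : N ∈ Finset.range (N + n + 1) := Finset.mem_range.2 (by omega)
  have hsub : N + n - N = n := by omega
  refine ⟨N + n, by omega, ⟨x.1, ?_, ?_⟩, ⟨x.2, ?_, ?_⟩⟩
  · refine Finset.mem_biUnion.2 ⟨N, hmem, ?_⟩
    rw [hsub]
    exact Finset.mem_image_of_mem _ hx
  · have : x.1⁻¹ * a = y.1 := by rw [← h1]; group
    rw [this]
    exact hy.1
  · refine Finset.mem_biUnion.2 ⟨N, hmem, ?_⟩
    rw [hsub]
    exact Finset.mem_image_of_mem _ hx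
  · have : x.2⁻¹ * b = y.2 := by rw [← h2]; group
    rw [this]
    exact hy.2

/-- The interleaved recursion: two sequences of positions. -/
def inter (K K' : List ℕ → ℕ → ℕ) (idx : List ℕ → ℕ) : ℕ → List ℕ × List ℕ
  | 0 => ([], [])
  | j + 1 =>
    let s := inter K K' idx j
    let t₁ := K s.1 (idx s.2) :: s.1
    (t₁, K' s.2 (idx t₁) :: s.2)

/-- **Theorem.** If player I has a winning strategy in `OF(A)` and in `OF(B)`, then `A × B` is not
`o`-bounded.  In particular, if player I has a winning strategy in `OF(G)` then `G × G` is not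
`o`-bounded. -/
theorem result {G : Type u} {H : Type v} [Group G] [TopologicalSpace G] [IsTopologicalGroup G]
    [Group H] [TopologicalSpace H] [IsTopologicalGroup H] (A : Set G) (B : Set H)
    (hA : FirstWins A) (hB : FirstWins B) : ¬ OBounded (A ×ˢ B : Set (G × H)) := by
  classical
  intro hAB
  obtain ⟨σ, hσ, hσw⟩ := hA
  obtain ⟨τ, hτ, hτw⟩ := hB
  have hAne : A.Nonempty := by
    by_contra h
    rw [not_nonempty_iff_eq_empty] at h
    exact hσw (fun _ => ∅) (by rw [h]; exact empty_subset _)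
  have hBne : B.Nonempty := by
    by_contra h
    rw [not_nonempty_iff_eq_empty] at h
    exact hτw (fun _ => ∅) (by rw [h]; exact empty_subset _)
  obtain ⟨D⟩ := exists_coding (A := A) hσ (countable_cover_fst hBne hAB)
  obtain ⟨D'⟩ := exists_coding (A := B) hτ (countable_cover_snd hAne hAB)
  obtain ⟨f, hf⟩ := exists_surjective_nat (List ℕ)
  choose idx hidx using hf
  obtain ⟨E, E', hE⟩ := exists_events hAB (D.common f) (D'.common f) (D.common_mem f)
    (D'.common_mem f)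
  choose K hK using D.exists_big f idx hidx E
  choose K' hK' using D'.exists_big f idx hidx E'
  let s := inter K K' idx
  let k : ℕ → ℕ := fun j => K (s j).1 (idx (s j).2)
  let k' : ℕ → ℕ := fun j => K' (s j).2 (idx (s (j + 1)).1)
  have hs1 : ∀ j, (s (j + 1)).1 = k j :: (s j).1 := fun j => rfl
  have hs2 : ∀ j, (s (j + 1)).2 = k' j :: (s j).2 := fun j => rfl
  have hseg : ∀ j, seg k j = (s j).1 := by
    intro j
    induction j with
    | zero => rfl
    | succ j ih => rw [hs1, ← ih]; rfl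
  have hseg' : ∀ j, seg k' j = (s j).2 := by
    intro j
    induction j with
    | zero => rfl
    | succ j ih => rw [hs2, ← ih]; rfl
  -- the two plays
  have hw := hσw (D.play k)
  have hw' := hτw (D'.play k')
  obtain ⟨a, ha, han⟩ := not_subset.1 hw
  obtain ⟨b, hb, hbn⟩ := not_subset.1 hw'
  have han' : ∀ j, a ∉ (D.move (D.pos (s j).1) (k j) : Set G) * D.pos (s j).1 := by
    intro j hj
    apply han
    refine mem_iUnion.2 ⟨j, ?_⟩
    rw [D.hist_seg, Coding.play, hseg]
    exact hj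
  have hbn' : ∀ j, b ∉ (D'.move (D'.pos (s j).2) (k' j) : Set H) * D'.pos (s j).2 := by
    intro j hj
    apply hbn
    refine mem_iUnion.2 ⟨j, ?_⟩
    rw [D'.hist_seg, Coding.play, hseg']
    exact hj
  -- the indices of the positions are unbounded
  have hinj : Function.Injective fun j => idx (s j).1 := by
    intro i j hij
    have h1 : (s i).1 = (s j).1 := by
      have := congrArg f hij
      simpa only [hidx] using this
    have h2 : (seg k i).length = (seg k j).length := by rw [hseg, hseg, h1]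
    rwa [seg_length, seg_length] at h2
  obtain ⟨n, hn, ⟨x, hx, hxa⟩, ⟨y, hy, hyb⟩⟩ := hE a ha b hb (idx (s 0).1)
  have hex : ∃ j, n < idx (s j).1 := by
    by_contra hcon
    push Not at hcon
    have : (Set.range fun j => idx (s j).1) ⊆ Set.Iic n := by
      rintro _ ⟨j, rfl⟩
      exact hcon j
    exact Set.infinite_range_of_injective hinj ((Set.finite_Iic n).subset this)
  have h0 : ¬ n < idx (s 0).1 := by omega
  obtain ⟨j, hj1, hj2⟩ : ∃ j, idx (s j).1 ≤ n ∧ n < idx (s (j + 1)).1 := by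
    have hpos : Nat.find hex ≠ 0 := by
      intro h
      have := Nat.find_spec hex
      rw [h] at this
      exact h0 this
    obtain ⟨j, hj⟩ := Nat.exists_eq_succ_of_ne_zero hpos
    refine ⟨j, ?_, ?_⟩
    · exact not_lt.1 (Nat.find_min hex (by omega))
    · have := Nat.find_spec hex
      rwa [hj] at this
  rcases le_or_gt n (idx (s j).2) with h | h
  · exact han' j (hK _ _ n hj1 h a ha x hx hxa)
  · exact hbn' j (hK' _ _ n h.le hj2.le b hb y hy hyb)

end Pool.Agent.Results.MP_b00c97_gt.ProductNotBounded
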