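import Pool.Agent.MP_b00c97_gt.YS.Main
import Pool.Agent.MP_b00c97_gt.FO.Main

/-!
# MP_b00c97_gt: Q1 is undecidable in ZFC

There is a model of ZFC in which there is an `o`-bounded topological group (abelian, with its
topology given by an ultrametric) on which player I has a winning strategy in the Open-Finite game,
and there is a model of ZFC in which there is no such topological group at all.
-/

set_option autoImplicit false

namespace Pool.Agent.Results.MP_b00c97_gt.Undecidable

open Pool.Agent.SetModel Pool.Agent.MP_b00c97_gt.Mod

theorem result : (∃ (M : Type 1) (E : M → M → Prop), IsModelZFC E ∧ Q1Yes E) ∧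
    ∃ (M : Type 1) (E : M → M → Prop), IsModelZFC E ∧ Q1No E :=
  ⟨Pool.Agent.MP_b00c97_gt.YS.exists_q1Yes, Pool.Agent.MP_b00c97_gt.FO.exists_q1No⟩

end Pool.Agent.Results.MP_b00c97_gt.Undecidable
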